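import Mathlib
import Pool.Agent.Q72.BD.Coef

/-!
# Bounded mappings with parametric representation on the bidisc: the bound `1 - 1/M` fails

For every `M > 1` the maximum of `max(|a¹_{0,2}|, |a²_{2,0}|)` over `S⁰(U², M)` is
`min(1, M - 1)`, which is larger than `1 - 1/M`.  It is attained by the shear
`(z₁ + a z₂², z₂)` with `a = min(1, M - 1)`.
-/

set_option autoImplicit false

open Filter Topology

namespace Pool.Agent.Results.MP_5d6127_an.BoundFails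

/-- The open unit bidisc: the open unit ball of `ℂ × ℂ`, whose norm is the maximum norm. -/
def U2 : Set (ℂ × ℂ) := Metric.ball 0 1

/-- A normal Loewner chain on the bidisc. -/
structure NormalLoewnerChain (F : ℂ × ℂ → ℝ → ℂ × ℂ) : Prop where
  /-- each `F(·,t)` is holomorphic on the bidisc -/
  holo : ∀ t : ℝ, 0 ≤ t → DifferentiableOn ℂ (fun z => F z t) U2
  /-- each `F(·,t)` is univalent (injective) on the bidisc -/
  inj : ∀ t : ℝ, 0 ≤ t → Set.InjOn (fun z => F z t) U2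
  /-- `F(0,t) = 0` -/
  map_zero : ∀ t : ℝ, 0 ≤ t → F 0 t = 0
  /-- `DF(0,t) = e^t I` -/
  deriv_zero : ∀ t : ℝ, 0 ≤ t →
    fderiv ℂ (fun z => F z t) 0 = (Real.exp t : ℂ) • ContinuousLinearMap.id ℂ (ℂ × ℂ)
  /-- the images increase -/
  mono : ∀ s t : ℝ, 0 ≤ s → s ≤ t → (fun z => F z s) '' U2 ⊆ (fun z => F z t) '' U2
  /-- `{e^{-t} F(·,t)}` is a normal family: every sequence in it has a subsequence that
  converges locally uniformly on the bidisc -/
  normal : ∀ u : ℕ → ℝ, (∀ n, 0 ≤ u n) → ∃ (φ : ℕ → ℕ) (g : ℂ × ℂ → ℂ × ℂ), StrictMono φ ∧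
    TendstoLocallyUniformlyOn
      (fun n z => (Real.exp (-(u (φ n))) : ℂ) • F z (u (φ n))) g atTop U2

/-- The class `S⁰(U²)` of mappings with parametric representation (as mappings on `U²`). -/
def S0 : Set (ℂ × ℂ → ℂ × ℂ) :=
  {f | ∃ F : ℂ × ℂ → ℝ → ℂ × ℂ, NormalLoewnerChain F ∧ ∀ z ∈ U2, f z = F z 0}

/-- The class `S⁰(U², M)`. -/
def S0M (M : ℝ) : Set (ℂ × ℂ → ℂ × ℂ) := {f | f ∈ S0 ∧ ∀ z ∈ U2, ‖f z‖ ≤ M}

/-- `a¹_{0,2}(f) = (1/2) ∂²f₁/∂z₂²(0)`. -/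
noncomputable def a102 (f : ℂ × ℂ → ℂ × ℂ) : ℂ :=
  (1 / 2) * iteratedDeriv 2 (fun w : ℂ => (f (0, w)).1) 0

/-- `a²_{2,0}(f) = (1/2) ∂²f₂/∂z₁²(0)`. -/
noncomputable def a220 (f : ℂ × ℂ → ℂ × ℂ) : ℂ :=
  (1 / 2) * iteratedDeriv 2 (fun w : ℂ => (f (w, 0)).2) 0

/-! ### The shears -/

/-- The shear `(z₁ + a z₂², z₂)`. -/
noncomputable def shear (a : ℝ) (z : ℂ × ℂ) : ℂ × ℂ := (z.1 + (a : ℂ) * z.2 ^ 2, z.2)

lemma mem_U2 {z : ℂ × ℂ} : z ∈ U2 ↔ ‖z.1‖ < 1 ∧ ‖z.2‖ < 1 := by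
  unfold U2
  rw [mem_ball_zero_iff, Prod.norm_def, max_lt_iff]

lemma shear_starlike {a : ℝ} (ha : 0 ≤ a) (ha1 : a ≤ 1) {c : ℝ} (hc : 0 < c) (hc1 : c ≤ 1)
    {z : ℂ × ℂ} (hz : z ∈ U2) : ∃ w ∈ U2, shear a w = (c : ℂ) • shear a z := by
  obtain ⟨h1, h2⟩ := mem_U2.1 hz
  refine ⟨((c : ℂ) * z.1 + ((a * c * (1 - c) : ℝ) : ℂ) * z.2 ^ 2, (c : ℂ) * z.2), ?_, ?_⟩
  · rw [mem_U2]
    constructor
    · have hn : ‖(c : ℂ) * z.1 + ((a * c * (1 - c) : ℝ) : ℂ) * z.2 ^ 2‖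
          ≤ c * ‖z.1‖ + (a * c * (1 - c)) * ‖z.2‖ ^ 2 := by
        refine (norm_add_le _ _).trans ?_
        rw [norm_mul, norm_mul, norm_pow, Complex.norm_real, Complex.norm_real,
          Real.norm_of_nonneg hc.le, Real.norm_of_nonneg
          (mul_nonneg (mul_nonneg ha hc.le) (by linarith))]
      have h3 : ‖z.2‖ ^ 2 ≤ 1 := by nlinarith [norm_nonneg z.2]
      have h4 : (a * c * (1 - c)) * ‖z.2‖ ^ 2 ≤ c * (1 - c) := by
        have h5 : 0 ≤ c * (1 - c) := mul_nonneg hc.le (by linarith)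
        calc (a * c * (1 - c)) * ‖z.2‖ ^ 2 = (a * ‖z.2‖ ^ 2) * (c * (1 - c)) := by ring
          _ ≤ 1 * (c * (1 - c)) := by
              apply mul_le_mul_of_nonneg_right _ h5
              nlinarith [sq_nonneg ‖z.2‖]
          _ = c * (1 - c) := one_mul _
      have h6 : c * ‖z.1‖ < c := by nlinarith
      nlinarith [sq_nonneg (1 - c)]
    · show ‖(c : ℂ) * z.2‖ < 1
      rw [norm_mul, Complex.norm_real, Real.norm_of_nonneg hc.le]
      nlinarith [norm_nonneg z.2]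
  · simp only [shear, Prod.smul_mk, smul_eq_mul]
    refine Prod.ext ?_ rfl
    push_cast
    ring

lemma shear_diff (a : ℝ) : Differentiable ℂ (shear a) := by
  unfold shear
  fun_prop

lemma shear_fderiv (a : ℝ) : HasFDerivAt (shear a) (ContinuousLinearMap.id ℂ (ℂ × ℂ)) 0 := by
  have h1 : HasFDerivAt (fun z : ℂ × ℂ => z.1 + (a : ℂ) * z.2 ^ 2)
      (ContinuousLinearMap.fst ℂ ℂ ℂ) 0 := by
    have hf : HasFDerivAt (fun z : ℂ × ℂ => z.1) (ContinuousLinearMap.fst ℂ ℂ ℂ) 0 :=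
      hasFDerivAt_fst
    have hs : HasFDerivAt (fun z : ℂ × ℂ => z.2) (ContinuousLinearMap.snd ℂ ℂ ℂ) 0 :=
      hasFDerivAt_snd
    have := hf.add ((hs.pow 2).const_mul (a : ℂ))
    refine this.congr_fderiv ?_
    simp
  have h2 : HasFDerivAt (fun z : ℂ × ℂ => z.2) (ContinuousLinearMap.snd ℂ ℂ ℂ) 0 :=
    hasFDerivAt_snd
  exact (h1.prodMk h2).congr_fderiv (by ext <;> simp)

lemma shear_inj (a : ℝ) : Function.Injective (shear a) := by
  rintro ⟨z1, z2⟩ ⟨w1, w2⟩ h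
  simp only [shear, Prod.mk.injEq] at h
  obtain ⟨h1, h2⟩ := h
  subst h2
  exact Prod.ext (by simpa using h1) rfl

/-- The Loewner chain `e^t f(z)` of a starlike shear. -/
lemma shear_chain {a : ℝ} (ha : 0 ≤ a) (ha1 : a ≤ 1) :
    NormalLoewnerChain (fun z t => (Real.exp t : ℂ) • shear a z) where
  holo t _ := by
    have h : Differentiable ℂ (fun z => (Real.exp t : ℂ) • shear a z) := by
      have := shear_diff a
      fun_prop
    exact h.differentiableOn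
  inj t _ := by
    intro z _ w _ h
    have h0 : (Real.exp t : ℂ) ≠ 0 := by exact_mod_cast (Real.exp_pos t).ne'
    exact shear_inj a (smul_right_injective _ h0 h)
  map_zero t _ := by simp [shear]
  deriv_zero t _ := by
    have h : HasFDerivAt (fun z => (Real.exp t : ℂ) • shear a z)
        ((Real.exp t : ℂ) • ContinuousLinearMap.id ℂ (ℂ × ℂ)) 0 :=
      (shear_fderiv a).fun_const_smul _
    exact h.fderiv
  mono s t _ hst := by
    rintro _ ⟨z, hz, rfl⟩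
    obtain ⟨w, hw, hwz⟩ := shear_starlike ha ha1 (Real.exp_pos (s - t))
      (Real.exp_le_one_iff.2 (by linarith)) hz
    refine ⟨w, hw, ?_⟩
    show (Real.exp t : ℂ) • shear a w = (Real.exp s : ℂ) • shear a z
    rw [hwz, smul_smul, ← Complex.ofReal_mul, ← Real.exp_add]
    congr 3
    ring
  normal u _ := by
    refine ⟨id, shear a, strictMono_id, ?_⟩
    have h : (fun (n : ℕ) (z : ℂ × ℂ) => (Real.exp (-(u (id n))) : ℂ) •
        ((Real.exp (u (id n)) : ℂ) • shear a z)) = fun _ z => shear a z := by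
      funext n z
      rw [smul_smul, ← Complex.ofReal_mul, ← Real.exp_add]
      simp
    rw [h]
    intro v hv x _
    exact ⟨Set.univ, univ_mem, Eventually.of_forall fun n y _ => refl_mem_uniformity hv⟩

lemma shear_mem {a : ℝ} (ha : 0 ≤ a) (ha1 : a ≤ 1) {M : ℝ} (hM : 1 ≤ M) (haM : 1 + a ≤ M) :
    shear a ∈ S0M M := by
  refine ⟨⟨_, shear_chain ha ha1, fun z _ => by simp⟩, fun z hz => ?_⟩
  obtain ⟨h1, h2⟩ := mem_U2.1 hz
  rw [Prod.norm_def]
  apply max_le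
  · refine (norm_add_le _ _).trans ?_
    rw [norm_mul, norm_pow, Complex.norm_real, Real.norm_of_nonneg ha]
    have h3 : ‖z.2‖ ^ 2 ≤ 1 := by nlinarith [norm_nonneg z.2]
    nlinarith [sq_nonneg ‖z.2‖]
  · exact h2.le.trans hM

lemma shear_coeff (a : ℝ) : a102 (shear a) = a := by
  unfold a102
  have h : (fun w : ℂ => (shear a (0, w)).1) = fun w : ℂ => (a : ℂ) * w ^ 2 := by
    funext w; simp [shear]
  rw [h, iteratedDeriv_succ, iteratedDeriv_one]
  have h1 : deriv (fun w : ℂ => (a : ℂ) * w ^ 2) = fun w : ℂ => (a : ℂ) * (2 * w) := by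
    funext w
    have := ((hasDerivAt_pow 2 w).const_mul (a : ℂ)).deriv
    simpa using this
  rw [h1]
  have h2 : deriv (fun w : ℂ => (a : ℂ) * (2 * w)) 0 = (a : ℂ) * (2 * 1) :=
    (((hasDerivAt_id (0 : ℂ)).const_mul (2 : ℂ)).const_mul (a : ℂ)).deriv
  rw [h2]
  ring

/-! ### The upper bound -/

lemma S0_props {f : ℂ × ℂ → ℂ × ℂ} (hf : f ∈ S0) :
    DifferentiableOn ℂ f U2 ∧ f 0 = 0 ∧ fderiv ℂ f 0 = ContinuousLinearMap.id ℂ (ℂ × ℂ) := by
  obtain ⟨F, hF, hfF⟩ := hf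
  have hU : U2 ∈ 𝓝 (0 : ℂ × ℂ) := Metric.ball_mem_nhds _ one_pos
  have h0 : (0 : ℂ × ℂ) ∈ U2 := mem_of_mem_nhds hU
  refine ⟨(hF.holo 0 le_rfl).congr hfF, ?_, ?_⟩
  · rw [hfF 0 h0]; exact hF.map_zero 0 le_rfl
  · have he : f =ᶠ[𝓝 0] fun z => F z 0 := by
      filter_upwards [hU] with z hz using hfF z hz
    rw [he.fderiv_eq, hF.deriv_zero 0 le_rfl]
    simp

lemma bound_M {f : ℂ × ℂ → ℂ × ℂ} {M : ℝ} (hf : f ∈ S0M M) : ‖a102 f‖ ≤ M - 1 := by
  obtain ⟨hd, h0, hD⟩ := S0_props hf.1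
  have hU : U2 ∈ 𝓝 (0 : ℂ × ℂ) := Metric.ball_mem_nhds _ one_pos
  have hda : HasFDerivAt f (ContinuousLinearMap.id ℂ (ℂ × ℂ)) 0 :=
    hD ▸ (hd.differentiableAt hU).hasFDerivAt
  have := Q72.BD.scalar_bound (h := fun z => (f z).1) (M := M) hd.fst (by simp [h0])
    zero_le_one (by rw [hda.fst.fderiv]; ext <;> simp)
    (fun z hz => (norm_fst_le _).trans (hf.2 z hz))
  have h2 : Q72.BD.q (fun z => (f z).1) = a102 f := rfl
  rw [h2] at this
  linarith

lemma bound_one {f : ℂ × ℂ → ℂ × ℂ} (hf : f ∈ S0) : ‖a102 f‖ ≤ 1 := by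
  obtain ⟨F, hF, hfF⟩ := hf
  obtain ⟨K, hK⟩ := Q72.BD.bounded_of_normal hF.holo hF.normal
  have h1 := Q72.BD.chain_bound hF.holo hF.inj hF.map_zero hF.deriv_zero hF.mono hK
  have h2 : a102 f = Q72.BD.q (fun z => (F z 0).1) := by
    have he : (fun w : ℂ => (f (0, w)).1) =ᶠ[𝓝 0] fun w => (F (0, w) 0).1 := by
      filter_upwards [Metric.ball_mem_nhds (0 : ℂ) one_pos] with w hw
      rw [hfF (0, w) (mem_U2.2 ⟨by simp, by simpa using hw⟩)]
    rw [a102, Q72.BD.q, he.iteratedDeriv_eq 2]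
  rw [h2]
  exact h1

/-- Interchanging the two coordinates. -/
def sw (f : ℂ × ℂ → ℂ × ℂ) (z : ℂ × ℂ) : ℂ × ℂ := (f z.swap).swap

lemma swap_mem {z : ℂ × ℂ} (hz : z ∈ U2) : z.swap ∈ U2 := by
  rw [mem_U2] at hz ⊢
  exact ⟨hz.2, hz.1⟩

lemma norm_swap' (z : ℂ × ℂ) : ‖z.swap‖ = ‖z‖ := by
  rw [Prod.norm_def, Prod.norm_def, max_comm]; rfl

/-- the coordinate interchange as a continuous linear map -/
noncomputable def swL : ℂ × ℂ →L[ℂ] ℂ × ℂ :=
  (ContinuousLinearMap.snd ℂ ℂ ℂ).prod (ContinuousLinearMap.fst ℂ ℂ ℂ)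

lemma swL_apply (z : ℂ × ℂ) : swL z = z.swap := rfl

lemma swap_image {g : ℂ × ℂ → ℂ × ℂ} : (fun z => (g z.swap).swap) '' U2 = Prod.swap '' (g '' U2) := by
  ext y
  constructor
  · rintro ⟨z, hz, rfl⟩
    exact ⟨g z.swap, ⟨z.swap, swap_mem hz, rfl⟩, rfl⟩
  · rintro ⟨_, ⟨z, hz, rfl⟩, rfl⟩
    exact ⟨z.swap, swap_mem hz, by simp⟩

lemma sw_chain {F : ℂ × ℂ → ℝ → ℂ × ℂ} (hF : NormalLoewnerChain F) :
    NormalLoewnerChain (fun z t => (F z.swap t).swap) where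
  holo t ht := by
    have h1 : DifferentiableOn ℂ (fun z => swL (F (swL z) t)) U2 :=
      swL.differentiable.comp_differentiableOn
        ((hF.holo t ht).comp swL.differentiable.differentiableOn (fun z hz => swap_mem hz))
    exact h1
  inj t ht := by
    intro z hz w hw h
    have h1 : F z.swap t = F w.swap t := Prod.swap_injective h
    exact Prod.swap_injective (hF.inj t ht (swap_mem hz) (swap_mem hw) h1)
  map_zero t ht := by
    have h1 : F ((0 : ℂ × ℂ).swap) t = 0 := hF.map_zero t ht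
    simp only [h1]
    rfl
  deriv_zero t ht := by
    have hU : U2 ∈ 𝓝 (0 : ℂ × ℂ) := Metric.ball_mem_nhds _ one_pos
    have h1 : HasFDerivAt (fun z => F z t)
        ((Real.exp t : ℂ) • ContinuousLinearMap.id ℂ (ℂ × ℂ)) (swL 0) := by
      rw [map_zero]
      exact hF.deriv_zero t ht ▸ ((hF.holo t ht).differentiableAt hU).hasFDerivAt
    have h2 := swL.hasFDerivAt.comp 0 (h1.comp 0 (swL.hasFDerivAt (x := 0)))
    have h3 : HasFDerivAt (fun z => (F z.swap t).swap) (swL.comp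
      (((Real.exp t : ℂ) • ContinuousLinearMap.id ℂ (ℂ × ℂ)).comp swL)) 0 := h2
    rw [h3.fderiv]
    refine ContinuousLinearMap.ext fun x => ?_
    simp [swL_apply]
  mono s t hs hst := by
    have e1 := swap_image (g := fun z => F z s)
    have e2 := swap_image (g := fun z => F z t)
    rw [e1, e2]
    exact Set.image_mono (hF.mono s t hs hst)
  normal u hu := by
    obtain ⟨φ, g, hφ, hg⟩ := hF.normal u hu
    refine ⟨φ, fun z => (g z.swap).swap, hφ, ?_⟩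
    have h1 : TendstoLocallyUniformlyOn
        (fun n z => (Real.exp (-(u (φ n))) : ℂ) • F z.swap (u (φ n)))
        (fun z => g z.swap) atTop U2 := by
      have := hg.comp (t := U2) Prod.swap (fun z hz => swap_mem hz)
        continuous_swap.continuousOn
      exact this
    rw [Metric.tendstoLocallyUniformlyOn_iff] at h1 ⊢
    intro ε hε x hx
    obtain ⟨t, ht, h2⟩ := h1 ε hε x hx
    refine ⟨t, ht, ?_⟩
    filter_upwards [h2] with n hn y hy
    have h3 := hn y hy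
    rw [dist_eq_norm] at h3 ⊢
    have h4 : (g y.swap).swap - (Real.exp (-(u (φ n))) : ℂ) • (F y.swap (u (φ n))).swap =
        (g y.swap - (Real.exp (-(u (φ n))) : ℂ) • F y.swap (u (φ n))).swap := rfl
    rw [h4, norm_swap']
    exact h3

lemma sw_mem {f : ℂ × ℂ → ℂ × ℂ} {M : ℝ} (hf : f ∈ S0M M) : sw f ∈ S0M M := by
  obtain ⟨⟨F, hF, hfF⟩, hM⟩ := hf
  refine ⟨⟨_, sw_chain hF, fun z hz => ?_⟩, fun z hz => ?_⟩
  · rw [sw, hfF _ (swap_mem hz)]
  · rw [sw, norm_swap']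
    exact hM _ (swap_mem hz)

lemma a220_eq (f : ℂ × ℂ → ℂ × ℂ) : a220 f = a102 (sw f) := rfl

/-- For every `M > 1` the maximum of `max(|a¹_{0,2}(f)|, |a²_{2,0}(f)|)` over `S⁰(U², M)` is
`min(1, M - 1)`, and this is larger than `1 - 1/M`. So the conjectured bound fails for
every `M > 1`. -/
theorem result (M : ℝ) (hM : 1 < M) :
    IsGreatest ((fun f : ℂ × ℂ → ℂ × ℂ => max ‖a102 f‖ ‖a220 f‖) '' S0M M) (min 1 (M - 1)) ∧
      1 - 1 / M < min 1 (M - 1) := by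
  have hM0 : 0 < M := by linarith
  have hnn : 0 ≤ min 1 (M - 1) := le_min zero_le_one (by linarith)
  have hub : ∀ f ∈ S0M M, max ‖a102 f‖ ‖a220 f‖ ≤ min 1 (M - 1) := by
    intro f hf
    rw [a220_eq]
    exact max_le (le_min (bound_one hf.1) (bound_M hf))
      (le_min (bound_one (sw_mem hf).1) (bound_M (sw_mem hf)))
  have hmem : shear (min 1 (M - 1)) ∈ S0M M :=
    shear_mem hnn (min_le_left _ _) hM.le (by have := min_le_right 1 (M - 1); linarith)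
  have hval : ‖a102 (shear (min 1 (M - 1)))‖ = min 1 (M - 1) := by
    rw [shear_coeff, Complex.norm_real, Real.norm_of_nonneg hnn]
  refine ⟨⟨⟨_, hmem, le_antisymm (hub _ hmem) (hval.symm.le.trans (le_max_left _ _))⟩, ?_⟩, ?_⟩
  · rintro _ ⟨f, hf, rfl⟩
    exact hub f hf
  · rw [lt_min_iff]
    have h1 : 0 < 1 / M := by positivity
    refine ⟨by linarith, ?_⟩
    have h2 : 1 - 1 / M = (M - 1) / M := by field_simp
    rw [h2, div_lt_iff₀ hM0]
    nlinarith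

end Pool.Agent.Results.MP_5d6127_an.BoundFails
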